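import Mathlib
import Pool.Agent.R473.EC.Main

/-!
# Algebraic relations between the digits of real algebraic numbers, with errors

`D(X) = a_1 X + ⋯ + a_L X^L`, where the `a_i` are the digits of a real number in base `b`.  By a
dimension count there are relations with polynomial coefficients of degree about `L / (m + 1)`
between any `m + 1` monomials in such polynomials modulo `X^(L+1)`.

For the digits of any finite family of real algebraic numbers there is a linear lower bound for
the degrees of the coefficients, in all bases at once, and this remains true after any bounded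
number of digits has been replaced by other digits.  (Without changes this is the starting result
`MP_f2f914_nt.AlgebraicComplexity`, with the optimal constant.)

Proof.  A relation gives a linear form with integer coefficients in the values of the monomials
(`Pool.Agent.W472.AC`); its size contradicts Liouville's inequality.  Changed digits: if `t` is the
last changed place, then the first `t - 1` digits contain fewer changes, hence `t` is bounded by
induction, and the family of the values is only shifted by rational numbers with denominator `b^t`;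
this changes the family of monomials by a unipotent matrix and the measure of linear independence
by a factor `b^(-O(t))`.
-/

set_option autoImplicit false

namespace Pool.Agent.Results.MP_f2f914_nt.AlgebraicComplexityWithErrors

open Finset Polynomial Module

/-- the `i`-th digit of `x` after the point in base `b` -/
noncomputable def digit (b : ℕ) (x : ℝ) (i : ℕ) : ℤ := ⌊x * (b : ℝ) ^ i⌋ % (b : ℤ)

/-- the polynomial `s_1 X + s_2 X^2 + ⋯ + s_L X^L` -/
noncomputable def seqPoly (s : ℕ → ℤ) (L : ℕ) : ℚ[X] := ∑ l ∈ Icc 1 L, C (s l : ℚ) * X ^ l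

/-- `s` is a sequence of base `b` digits, and among the places `1, …, L` at most `K` are such that
`s_l` is not the `l`-th digit of `x` -/
def Near (b : ℕ) (x : ℝ) (K L : ℕ) (s : ℕ → ℤ) : Prop :=
  (∀ l, 0 ≤ s l ∧ s l < b) ∧ {l : ℕ | 1 ≤ l ∧ l ≤ L ∧ s l ≠ digit b x l}.ncard ≤ K

/-- `s_1, …, s_n` are sequences of base `b` digits, and among the places `1, …, L` there are at
most `K` at which some `s_i` differs from the digit of `x_i` -/
def JointlyNear (b : ℕ) {n : ℕ} (x : Fin n → ℝ) (K L : ℕ) (s : Fin n → ℕ → ℤ) : Prop :=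
  (∀ i l, 0 ≤ s i l ∧ s i l < b) ∧
    {l : ℕ | 1 ≤ l ∧ l ≤ L ∧ ∃ i, s i l ≠ digit b (x i) l}.ncard ≤ K

/-- there are polynomials `h_0, …, h_m` over `ℚ` of degree `≤ k`, not all zero, such that
`∑_j h_j ∏_i S_i ^ (E j i)` is divisible by `X^(L+1)`, where `S_i` is the polynomial of the first
`L` terms of `s_i` -/
def MonRelation {n m : ℕ} (s : Fin n → ℕ → ℤ) (E : Fin (m + 1) → Fin n → ℕ) (L k : ℕ) : Prop :=
  ∃ h : Fin (m + 1) → ℚ[X], h ≠ 0 ∧ (∀ j, (h j).natDegree ≤ k) ∧
    X ^ (L + 1) ∣ ∑ j, h j * ∏ i, seqPoly (s i) L ^ E j i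

/-- the case of one sequence: there is a nonzero polynomial `P(X, Y)` over `ℚ` of degree `≤ r` in
`Y` and `≤ k` in `X` such that `P(X, S(X))` is divisible by `X^(L+1)` -/
def AlgRelation (s : ℕ → ℤ) (r L k : ℕ) : Prop :=
  ∃ P : ℚ[X][X], P ≠ 0 ∧ P.natDegree ≤ r ∧ (∀ j, (P.coeff j).natDegree ≤ k) ∧
    X ^ (L + 1) ∣ P.eval (seqPoly s L)

/-- **(1)** Let `x_1, …, x_n` be real algebraic numbers, and let `E` be a finite set of exponents,
closed under divisors, such that the monomials with these exponents in `x_1, …, x_n` are linearly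
independent over `ℚ`.  There is a constant `A` such that for all bases `b ≥ 2`, all `K` and all `L`:
if at most `K` places of the first `L` base `b` digits of the `x_i` are changed, then a relation
between the monomials in the digit polynomials modulo `X^(L+1)`, with coefficients of degree at
most `k`, is only possible for `L ≤ A^(K+1) (k + 1)`.

**(2)** For a real algebraic number `x` of degree larger than `r` there is such an `A` for the
relations of degree at most `r` in the digit polynomial. -/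
theorem result :
    (∀ (n m : ℕ) (x : Fin n → ℝ), (∀ i, IsAlgebraic ℚ (x i)) →
      ∀ E : Fin (m + 1) → Fin n → ℕ, (∀ j, ∀ a : Fin n → ℕ, a ≤ E j → ∃ j', E j' = a) →
      (LinearIndependent ℚ fun j => ∏ i, x i ^ E j i) →
      ∃ A : ℝ, 1 ≤ A ∧ ∀ b : ℕ, 2 ≤ b → ∀ K L k : ℕ, ∀ s : Fin n → ℕ → ℤ,
        JointlyNear b x K L s → MonRelation s E L k → (L : ℝ) ≤ A ^ (K + 1) * (k + 1)) ∧
    (∀ x : ℝ, IsAlgebraic ℚ x → ∀ r : ℕ, r < (minpoly ℚ x).natDegree →
      ∃ A : ℝ, 1 ≤ A ∧ ∀ b : ℕ, 2 ≤ b → ∀ K L k : ℕ, ∀ s : ℕ → ℤ,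
        Near b x K L s → AlgRelation s r L k → (L : ℝ) ≤ A ^ (K + 1) * (k + 1)) := by
  have part1 : ∀ (n m : ℕ) (x : Fin n → ℝ), (∀ i, IsAlgebraic ℚ (x i)) →
      ∀ E : Fin (m + 1) → Fin n → ℕ, (∀ j, ∀ a : Fin n → ℕ, a ≤ E j → ∃ j', E j' = a) →
      (LinearIndependent ℚ fun j => ∏ i, x i ^ E j i) →
      ∃ A : ℝ, 1 ≤ A ∧ ∀ b : ℕ, 2 ≤ b → ∀ K L k : ℕ, ∀ s : Fin n → ℕ → ℤ,
        JointlyNear b x K L s → MonRelation s E L k → (L : ℝ) ≤ A ^ (K + 1) * (k + 1) := by
    intro n m x hx E hdown hli
    obtain ⟨K₀, hK₀⟩ : ∃ K₀ : IntermediateField ℚ ℝ,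
      K₀ = IntermediateField.adjoin ℚ (Set.range x) := ⟨_, rfl⟩
    have hfd : FiniteDimensional ℚ K₀ := by
      rw [hK₀]
      exact IntermediateField.finiteDimensional_adjoin (fun y hy => by
        obtain ⟨i, rfl⟩ := hy
        exact (hx i).isIntegral)
    obtain ⟨A, hA, h⟩ := Pool.Agent.R473.EC.errors_field K₀ x (fun i => by
      rw [hK₀]
      exact IntermediateField.subset_adjoin _ _ ⟨i, rfl⟩) E hdown hli
    exact ⟨A, hA, fun b hb K L k s hs hrel => h b hb K L k s hs.1 hs.2 hrel⟩
  refine ⟨part1, fun x hx r hr => ?_⟩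
  obtain ⟨E, hE⟩ : ∃ E : Fin (r + 1) → Fin 1 → ℕ, E = fun (j : Fin (r + 1)) _ => (j : ℕ) :=
    ⟨_, rfl⟩
  have hmon : ∀ (R : Type) [CommRing R] (y : Fin 1 → R) (j : Fin (r + 1)),
      ∏ i, y i ^ E j i = y 0 ^ (j : ℕ) := by
    intro R _ y j
    rw [hE]
    simp
  have hli : LinearIndependent ℚ fun j : Fin (r + 1) => ∏ i : Fin 1, (fun _ => x) i ^ E j i := by
    have h1 : (fun j : Fin (r + 1) => ∏ i : Fin 1, (fun _ => x) i ^ E j i) =
        fun j : Fin (r + 1) => x ^ (j : ℕ) := by
      ext j
      exact hmon ℝ (fun _ => x) j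
    rw [h1]
    exact (linearIndependent_pow x).comp (Fin.castLE (by omega)) (Fin.castLE_injective _)
  obtain ⟨A, hA, h⟩ := part1 1 r (fun _ => x) (fun _ => hx) E (fun j a ha => by
    have h0 : a 0 ≤ E j 0 := ha 0
    rw [hE] at h0 ⊢
    simp only [] at h0 ⊢
    refine ⟨⟨a 0, by have := j.2; omega⟩, ?_⟩
    ext i
    rw [Subsingleton.elim i 0]) hli
  refine ⟨A, hA, fun b hb K L k s hs hrel => h b hb K L k (fun _ => s) ⟨fun _ l => hs.1 l, ?_⟩ ?_⟩
  · have h1 : {l : ℕ | 1 ≤ l ∧ l ≤ L ∧ ∃ i : Fin 1, (fun _ => s) i l ≠ digit b ((fun _ => x) i) l} =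
        {l : ℕ | 1 ≤ l ∧ l ≤ L ∧ s l ≠ digit b x l} := by
      ext l
      simp
    rw [h1]
    exact hs.2
  · obtain ⟨P, hP0, hPr, hPk, hX⟩ := hrel
    refine ⟨fun j => P.coeff j, ?_, fun j => hPk j, ?_⟩
    · intro h0
      apply hP0
      ext1 j
      by_cases hj : j < r + 1
      · have := congrFun h0 ⟨j, hj⟩
        simpa using this
      · rw [coeff_eq_zero_of_natDegree_lt (by omega), coeff_zero]
    · rw [eval_eq_sum_range' (show P.natDegree < r + 1 by omega), Finset.sum_range] at hX
      have h2 : ∑ j : Fin (r + 1), P.coeff (j : ℕ) * ∏ i : Fin 1, seqPoly ((fun _ => s) i) L ^ E j i =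
          ∑ j : Fin (r + 1), P.coeff (j : ℕ) * seqPoly s L ^ (j : ℕ) := by
        refine Finset.sum_congr rfl fun j _ => ?_
        rw [hmon ℚ[X] (fun _ => seqPoly s L) j]
      rw [h2]
      exact hX

end Pool.Agent.Results.MP_f2f914_nt.AlgebraicComplexityWithErrors
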