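import Pool.Agent.R474.AG.Auto

/-!
# Coverings of the nonzero digits of algebraic numbers

No hypothesis is assumed.  Let `x` be a real irrational algebraic number of degree `D`, let `b ≥ 2`,
and let `e` be the digit `0` or the digit `b - 1`.  There are `c > 0` and `n₀`, which depend only on
`x` and `b`, such that for all `n ≥ n₀` the following holds.

1. If `K` intervals of integers, of lengths which add up to `W`, cover all places in `[1, n]` of
   digits different from `e`, then `c n ≤ K ^ (D - 1) W`.
2. Let an automaton with finite state set `Q` predict each digit before it is read. If `E` of the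
   predictions of the first `n` digits are wrong, and if `N` of the first `n` digits are different
   from `e`, then `c n ≤ |Q| (E + 1) ^ (D - 1) N`.
-/

set_option autoImplicit false

open Finset

namespace Pool.Agent.Results.MP_f2f914_nt.CoveringNonzeroDigits

/-- the `k`-th digit of `x` after the point in base `b` -/
noncomputable def digit (b : ℕ) (x : ℝ) (k : ℕ) : ℤ := ⌊x * (b : ℝ) ^ k⌋ % (b : ℤ)

/-- the number of `k` in `[1, n]` for which the `k`-th digit is not `e` -/
noncomputable def others (b : ℕ) (x : ℝ) (e : ℤ) (n : ℕ) : ℕ :=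
  ((Icc 1 n).filter (fun k => digit b x k ≠ e)).card

/-- the number of `k` in `[1, n]` for which the prediction `p (k - 1)` of the `k`-th digit is
wrong -/
noncomputable def wrong (b : ℕ) (x : ℝ) (p : ℕ → ℤ) (n : ℕ) : ℕ :=
  ((Icc 1 n).filter (fun k => digit b x k ≠ p (k - 1))).card

/-- The result. In the second part `step` is the transition function of the automaton, `out q` is
the digit predicted in the state `q`, and `s k` is the state after the digits `1, …, k` have been
read. -/
theorem result (x : ℝ) (halg : IsAlgebraic ℚ x) (hirr : Irrational x) (b : ℕ) (hb : 2 ≤ b) (D : ℕ)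
    (hD : (minpoly ℚ x).natDegree = D) :
    ∃ c : ℝ, 0 < c ∧ ∃ n₀ : ℕ, ∀ n : ℕ, n₀ ≤ n → ∀ e : ℤ, (e = 0 ∨ e = b - 1) →
      (∀ (K : ℕ) (u w : ℕ → ℕ), (∀ i < K, u i ≤ w i) →
        (∀ k ∈ Icc 1 n, digit b x k ≠ e → ∃ i < K, u i ≤ k ∧ k ≤ w i) →
        c * n ≤ (K : ℝ) ^ (D - 1) * ((∑ i ∈ range K, (w i + 1 - u i) : ℕ) : ℝ)) ∧
      (∀ (Q : Type) [Finite Q] (step : Q → ℤ → Q) (out : Q → ℤ) (s : ℕ → Q),
        (∀ k, s (k + 1) = step (s k) (digit b x (k + 1))) →
        c * n ≤ Nat.card Q * ((wrong b x (fun k => out (s k)) n : ℝ) + 1) ^ (D - 1) *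
          (others b x e n : ℝ)) := by
  obtain ⟨c, hc, n₀, h⟩ := Pool.Agent.R474.AG.cover_alg hb halg hirr
  rw [hD] at h
  refine ⟨c / 2, by positivity, n₀, fun n hn e he => ⟨fun K u w huw hcov => ?_,
    fun Q _ step out s hs => ?_⟩⟩
  · have h1 := h e he n K u w hn huw hcov
    have hn0 : (0 : ℝ) ≤ n := Nat.cast_nonneg _
    have h2 : c / 2 * n ≤ c * n := by nlinarith
    exact h2.trans h1
  · exact Pool.Agent.R474.AG.auto_finite (digit b x) e c hc.le (D - 1) n
      (fun K u w huw hcov => h e he n K u w hn huw hcov) step out s hs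

end Pool.Agent.Results.MP_f2f914_nt.CoveringNonzeroDigits
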