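import Pool.Agent.R485.Mult.Disc

/-!
# Discrepancy of the multiples of an algebraic irrational number

Let `x` be a real algebraic irrational number. Among the multiples `m x` with `m ≤ exp(ε N)` (`ε > 0`
arbitrarily small) almost all are normal up to the `N`-th digit, with the discrepancy
`N ^ (-1/2 + δ)` of a random number, simultaneously in all bases `b ≤ B`.

Proof. For a fixed `s` the `2s`-th moment over `m` of `∑_{i ≤ n} exp(2πi h (y + m x) b^i)` is
expanded. The sums over `m` are geometric sums, with frequencies `h x ∑_j ± b^(i_j)`. By the subspace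
theorem such a number is not closer than `exp(-ε N / 2)` to an integer, unless `∑_j ± b^(i_j) = 0`.
This equation has only `O(N ^ s)` solutions, because every exponent must be near to another one (a
graph without isolated vertices has a dominating set with at most half of the vertices).
-/

set_option autoImplicit false

namespace Pool.Agent.Results.MP_f2f914_nt.MultiplesDiscrepancy

open Finset

/-- for every `n ≤ N` the number of `i` with `1 ≤ i ≤ n` such that the fractional part of `z b^i` lies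
in `[α, β)` differs from `(β - α) n` by at most `E`, for all intervals `[α, β) ⊆ [0, 1)` -/
def DiscrepancyUpTo (b N : ℕ) (E z : ℝ) : Prop :=
  ∀ n : ℕ, n ≤ N → ∀ α β : ℝ, 0 ≤ α → α < β → β ≤ 1 →
    |(({i : ℕ | 1 ≤ i ∧ i ≤ n ∧ α ≤ Int.fract (z * (b : ℝ) ^ i) ∧
      Int.fract (z * (b : ℝ) ^ i) < β}.ncard : ℕ) : ℝ) - (β - α) * n| ≤ E

/-- Let `x` be a real algebraic irrational number, `B ≥ 2`, `ε, δ > 0` and `A` be arbitrary.
(1) There is `N₀` such that for all `N ≥ N₀`, all real `y`, all integers `J` and all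
`M ≥ exp(ε N)` the following holds for all but at most `M / N ^ A` of the `M` integers
`J ≤ m < J + M`: in every base `2 ≤ b ≤ B` the first `N` terms of the sequence
`((y + m x) b^i)_{i ≥ 1}` have discrepancy at most `N ^ (1/2 + δ)` (not normalized), and so have its
first `n` terms, for all `n ≤ N`.
(2) For all large `N` there is `1 ≤ m ≤ exp(ε N)` such that the algebraic irrational number `m x` has
this property. -/
theorem result (x : ℝ) (halg : IsAlgebraic ℚ x) (hirr : Irrational x) (B : ℕ) (ε δ : ℝ)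
    (hε : 0 < ε) (hδ : 0 < δ) :
    (∀ A : ℕ, ∃ N₀ : ℕ, ∀ N : ℕ, N₀ ≤ N → ∀ (y : ℝ) (J : ℤ) (M : ℕ), Real.exp (ε * N) ≤ M →
      (({m : ℤ | J ≤ m ∧ m < J + M ∧ ¬ ∀ b : ℕ, 2 ≤ b → b ≤ B →
        DiscrepancyUpTo b N ((N : ℝ) ^ (1 / 2 + δ)) (y + m * x)}.ncard : ℕ) : ℝ) ≤
          M / (N : ℝ) ^ A) ∧
    (∃ N₀ : ℕ, ∀ N : ℕ, N₀ ≤ N → ∃ m : ℕ, 1 ≤ m ∧ (m : ℝ) ≤ Real.exp (ε * N) ∧
      ∀ b : ℕ, 2 ≤ b → b ≤ B → DiscrepancyUpTo b N ((N : ℝ) ^ (1 / 2 + δ)) (m * x)) := by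
  classical
  have hdef : ∀ (b N : ℕ) (E z : ℝ), DiscrepancyUpTo b N E z ↔ ∀ n : ℕ, n ≤ N → ∀ α β : ℝ, 0 ≤ α →
      α < β → β ≤ 1 → |(((Icc 1 n).filter (fun i : ℕ => α ≤ Int.fract (z * (b : ℝ) ^ i) ∧
        Int.fract (z * (b : ℝ) ^ i) < β)).card : ℝ) - (β - α) * n| ≤ E := by
    intro b N E z
    unfold DiscrepancyUpTo
    refine forall_congr' fun n => imp_congr_right fun _ => forall_congr' fun α =>
      forall_congr' fun β => imp_congr_right fun _ => imp_congr_right fun _ =>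
        imp_congr_right fun _ => ?_
    rw [← Set.ncard_coe_finset]
    have : {i : ℕ | 1 ≤ i ∧ i ≤ n ∧ α ≤ Int.fract (z * (b : ℝ) ^ i) ∧
        Int.fract (z * (b : ℝ) ^ i) < β} = (((Icc 1 n).filter (fun i : ℕ =>
        α ≤ Int.fract (z * (b : ℝ) ^ i) ∧ Int.fract (z * (b : ℝ) ^ i) < β) : Finset ℕ) : Set ℕ) := by
      ext i
      simp [and_assoc]
    rw [this]
  have part1 : ∀ (η : ℝ), 0 < η → ∀ A : ℕ, ∃ N₀ : ℕ, ∀ N : ℕ, N₀ ≤ N →
      ∀ (y : ℝ) (J : ℤ) (M : ℕ), Real.exp (η * N) ≤ M →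
      (({m : ℤ | J ≤ m ∧ m < J + M ∧ ¬ ∀ b : ℕ, 2 ≤ b → b ≤ B →
        DiscrepancyUpTo b N ((N : ℝ) ^ (1 / 2 + δ)) (y + m * x)}.ncard : ℕ) : ℝ) ≤
          M / (N : ℝ) ^ A := by
    intro η hη A
    obtain ⟨N₀, h⟩ := Pool.Agent.R485.Mult.main x halg hirr B η δ hη hδ A
    refine ⟨max N₀ 1, fun N hN y J M hM => ?_⟩
    have hN1 : (1 : ℝ) ≤ N := by exact_mod_cast (le_max_right _ _).trans hN
    have h1 := h N ((le_max_left _ _).trans hN) y J M hM
    rw [le_div_iff₀ (by positivity)]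
    refine le_trans (mul_le_mul_of_nonneg_right ?_ (by positivity)) h1
    refine Nat.cast_le.2 ?_
    set S := {m : ℕ | m < M ∧ ¬ ∀ b : ℕ, 2 ≤ b → b ≤ B → ∀ n : ℕ, n ≤ N → ∀ α β : ℝ, 0 ≤ α →
        α < β → β ≤ 1 →
          |(((Icc 1 n).filter (fun i : ℕ => α ≤ Int.fract ((y + (J + m) * x) * (b : ℝ) ^ i) ∧
            Int.fract ((y + (J + m) * x) * (b : ℝ) ^ i) < β)).card : ℝ) - (β - α) * n| ≤
              (N : ℝ) ^ (1 / 2 + δ)} with hS
    have hSf : S.Finite := (finite_toSet (range M)).subset (by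
      rintro m ⟨hm, -⟩
      rw [mem_coe, mem_range]
      exact hm)
    refine le_trans (Set.ncard_le_ncard ?_ (hSf.image (fun m : ℕ => J + (m : ℤ))))
      (Set.ncard_image_le hSf)
    rintro m ⟨hm1, hm2, hm3⟩
    refine ⟨(m - J).toNat, ⟨by omega, fun hcon => hm3 fun b hb1 hb2 => ?_⟩, by
      simp only
      omega⟩
    rw [hdef]
    have e1 : ((J : ℝ) + (((m - J).toNat : ℕ) : ℝ)) = m := by
      have : (((m - J).toNat : ℕ) : ℤ) = m - J := Int.toNat_of_nonneg (by omega)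
      have h2 : (((m - J).toNat : ℕ) : ℝ) = ((m - J : ℤ) : ℝ) := by
        rw [← this]
        push_cast
        rfl
      rw [h2]
      push_cast
      ring
    have h3 := hcon b hb1 hb2
    rw [e1] at h3
    exact h3
  refine ⟨part1 ε hε, ?_⟩
  obtain ⟨N₀, h⟩ := part1 (ε / 2) (by positivity) 1
  refine ⟨max N₀ (max 2 ⌈2 / ε⌉₊), fun N hN => ?_⟩
  have hN0 : N₀ ≤ N := (le_max_left _ _).trans hN
  have hN2 : 2 ≤ N := ((le_max_left _ _).trans (le_max_right _ _)).trans hN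
  have hN3 : 2 / ε ≤ N := (Nat.le_ceil _).trans
    (Nat.cast_le.2 (((le_max_right _ _).trans (le_max_right _ _)).trans hN))
  have hN2R : (2 : ℝ) ≤ N := by exact_mod_cast hN2
  rw [div_le_iff₀ hε] at hN3
  set M : ℕ := ⌈Real.exp (ε / 2 * N)⌉₊ with hM
  have hM1 : Real.exp (ε / 2 * N) ≤ M := Nat.le_ceil _
  have hM2 : (M : ℝ) ≤ Real.exp (ε * N) := by
    have h1 := (Nat.ceil_lt_add_one (Real.exp_pos (ε / 2 * N)).le).le
    have h2 : 2 ≤ Real.exp (ε / 2 * N) := by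
      have := Real.add_one_le_exp (ε / 2 * N)
      linarith
    have h3 : Real.exp (ε * N) = Real.exp (ε / 2 * N) * Real.exp (ε / 2 * N) := by
      rw [← Real.exp_add]
      congr 1
      ring
    rw [h3]
    nlinarith
  have hM0 : (0 : ℝ) < M := lt_of_lt_of_le (Real.exp_pos _) hM1
  have h1 := h N hN0 0 1 M hM1
  by_contra hcon
  push Not at hcon
  have h2 : {m : ℤ | 1 ≤ m ∧ m < 1 + M ∧ ¬ ∀ b : ℕ, 2 ≤ b → b ≤ B →
      DiscrepancyUpTo b N ((N : ℝ) ^ (1 / 2 + δ)) (0 + m * x)} = ((Ico 1 (1 + (M : ℤ)) : Finset ℤ) :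
        Set ℤ) := by
    ext m
    simp only [Set.mem_setOf_eq, coe_Ico, Set.mem_Ico]
    constructor
    · rintro ⟨h3, h4, -⟩
      exact ⟨h3, h4⟩
    · rintro ⟨h3, h4⟩
      refine ⟨h3, h4, fun h5 => ?_⟩
      have e1 : ((m.toNat : ℕ) : ℤ) = m := Int.toNat_of_nonneg (by omega)
      have e2 : ((m.toNat : ℕ) : ℝ) = (m : ℝ) := by exact_mod_cast congrArg (Int.cast : ℤ → ℝ) e1
      obtain ⟨b, hb1, hb2, hb3⟩ := hcon m.toNat (by omega) (by
        refine le_trans ?_ hM2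
        exact_mod_cast (by omega : m.toNat ≤ M))
      apply hb3
      rw [e2]
      have h6 := h5 b hb1 hb2
      rw [zero_add] at h6
      exact h6
  rw [h2, Set.ncard_coe_finset, Int.card_Ico] at h1
  have h3 : (((1 + (M : ℤ) - 1).toNat : ℕ) : ℝ) = M := by
    have : (1 + (M : ℤ) - 1).toNat = M := by omega
    rw [this]
  rw [h3, pow_one, le_div_iff₀ (by positivity)] at h1
  nlinarith

end Pool.Agent.Results.MP_f2f914_nt.MultiplesDiscrepancy
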