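import Pool.Agent.R485.TransS.Diag

/-!
# Nearly all rational translates of an algebraic number are nearly normal

Let `x` be any real number (for instance an algebraic irrational one), `S` a finite set of primes and
`b ≥ 2` a base which is not divisible by the primes of `S`. In the quadratic mean over the translates
`x + a / m`, where all prime factors of `m` are in `S`, the discrepancy of the first `N` digits is
`O(log m (1 / √m + log N / √N))`. Hence, if `N` is large, then all but `K(ε)` of the translates
`x + a / m`, `0 ≤ a < m`, are normal up to `ε` at the stage `N`, where `K(ε)` does not depend on `m`.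
By a diagonal argument there are stages `N_1 < N_2 < …` which serve for all real algebraic numbers `x`,
all `ε` and all rationals with denominators composed of primes of `S`. So there are algebraic
irrational numbers (in every coset `x + ℚ`, in every interval) which are normal up to `ε` at infinitely
many stages, in many bases; no algebraic irrational number is known to be normal in any base.

Proof. The variance over `a` of `∑_{u < i ≤ v} exp(2πi h b^i (x + a / m))` is at most the number of the
pairs `i, j` with `m ∣ h (b^i - b^j)`, whatever `x` is, and such `i, j` are congruent modulo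
`m / gcd(m, h c)` with a constant `c`. A maximal inequality over dyadic intervals gives all `n ≤ N` at
once, and an inequality of Erdős–Turán type gives all intervals at once.
-/

set_option autoImplicit false

open Filter

namespace Pool.Agent.Results.MP_f2f914_nt.RationalTranslates

/-- `z` is normal in base `b` up to the `N`-th digit, with an error of at most `E`: for all `n ≤ N` and
all intervals `[α, β)` in `[0, 1]` the number of `1 ≤ i ≤ n` for which the fractional part of `z b ^ i`
lies in `[α, β)` differs from `(β - α) n` by at most `E` -/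
def DiscrepancyUpTo (b N : ℕ) (E z : ℝ) : Prop :=
  ∀ n : ℕ, n ≤ N → ∀ α β : ℝ, 0 ≤ α → α < β → β ≤ 1 →
    |(((Finset.Icc 1 n).filter (fun i : ℕ => α ≤ Int.fract (z * (b : ℝ) ^ i) ∧
      Int.fract (z * (b : ℝ) ^ i) < β)).card : ℝ) - (β - α) * n| ≤ E

/-- Let `S` be a finite set of primes and `𝓑` a finite set of bases `b ≥ 2` which are not divisible by
the primes of `S` (`Nat.factoredNumbers S` is the set of the `m ≥ 1` with all prime factors in `S`).
(1) For every `b ∈ 𝓑` there is `C` such that for every real `x`, all `m ≥ 1` whose prime factors are in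
`S` and all `N ≥ 1` the quadratic mean over `0 ≤ a < m` of the deviation of `x + a / m` up to the `N`-th
digit is at most `C (1 + log m) (N / √m + √N (1 + log N))`.
(2) There is `C` such that for every countable set `X` of real numbers (for instance the set of all
real algebraic numbers) and every infinite set `𝒩` there are `φ 0 < φ 1 < …` in `𝒩` such that for
all `x ∈ X` and `0 < ε ≤ 1`, for all but at most `C ((1 + log (1 / ε)) / ε) ^ 2` of the classes modulo
one of the rationals `r` whose denominators have all their prime factors in `S`, the deviation of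
`x + r` up to the `φ j`-th digit is at most `ε φ j` in all bases `b ∈ 𝓑`, for all large `j`. -/
theorem result (S 𝓑 : Finset ℕ) (hS : ∀ q ∈ S, q.Prime)
    (h𝓑 : ∀ b ∈ 𝓑, 2 ≤ b ∧ ∀ q ∈ S, ¬ q ∣ b) :
    (∀ b ∈ 𝓑, ∃ C : ℝ, ∀ (x : ℝ) (m N : ℕ), m ∈ Nat.factoredNumbers S → 1 ≤ N → ∃ E : ℕ → ℝ,
      (∀ a : ℕ, DiscrepancyUpTo b N (E a) (x + a / (m : ℝ))) ∧
      (∑ a ∈ Finset.range m, E a ^ 2) / m ≤
        (C * (1 + Real.log m) * (N / √m + √N * (1 + Real.log N))) ^ 2) ∧
    (∃ C : ℝ, ∀ X : Set ℝ, X.Countable → ∀ 𝒩 : Set ℕ, 𝒩.Infinite →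
      ∃ φ : ℕ → ℕ, StrictMono φ ∧ (∀ j, φ j ∈ 𝒩) ∧ ∀ x ∈ X, ∀ ε : ℝ, 0 < ε → ε ≤ 1 →
        ∃ E : Finset ℚ, (E.card : ℝ) ≤ C * ((1 + Real.log (1 / ε)) / ε) ^ 2 ∧
          ∀ r : ℚ, r.den ∈ Nat.factoredNumbers S → Int.fract r ∉ E →
            ∀ᶠ j in atTop, ∀ b ∈ 𝓑, DiscrepancyUpTo b (φ j) (ε * φ j) (x + r)) :=
  ⟨fun b hb => Pool.Agent.R485.TransS.mean_disc S b (fun q hq => ⟨hS q hq, (h𝓑 b hb).2 q hq⟩)
    (h𝓑 b hb).1, Pool.Agent.R485.TransS.main S 𝓑 hS h𝓑⟩

end Pool.Agent.Results.MP_f2f914_nt.RationalTranslates
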